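import Pool.Agent.Helper18.SK.Defs

set_option autoImplicit false

namespace Pool.Agent.Helper25.SK

open Pool.Agent.Helper18.SK

theorem isWalk_append {V E : Type} (src tgt : E → V) (l l' : List E) (p q : V) :
    IsWalk src tgt p q (l ++ l') ↔ ∃ r, IsWalk src tgt p r l ∧ IsWalk src tgt r q l' := by
  induction l generalizing p with
  | nil => simp [IsWalk]
  | cons e l ih =>
    simp only [List.cons_append, IsWalk, ih]
    constructor
    · rintro ⟨h1, r, h2, h3⟩; exact ⟨r, ⟨h1, h2⟩, h3⟩
    · rintro ⟨r, ⟨h1, h2⟩, h3⟩; exact ⟨h1, r, h2, h3⟩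

theorem isWalk_get {V E : Type} (src tgt : E → V) (l : List E) (p q : V)
    (h : IsWalk src tgt p q l) (hl : 0 < l.length) :
    src (l[0]) = p ∧ (∀ i (hi : i + 1 < l.length), tgt (l[i]) = src (l[i+1])) ∧
      tgt (l[l.length - 1]) = q := by
  induction l generalizing p with
  | nil => simp at hl
  | cons e l ih =>
    obtain ⟨h1, h2⟩ := h
    rcases Nat.eq_zero_or_pos l.length with h0 | h0
    · have : l = [] := List.length_eq_zero_iff.mp h0
      subst this
      refine ⟨h1, ?_, ?_⟩
      · intro i hi; simp at hi
      · simpa [IsWalk] using h2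
    · obtain ⟨g1, g2, g3⟩ := ih (tgt e) h2 h0
      refine ⟨h1, ?_, ?_⟩
      · intro i hi
        cases i with
        | zero => simpa using g1.symm
        | succ i =>
          simp only [List.getElem_cons_succ]
          exact g2 i (by simpa using hi)
      · have : (e :: l)[(e :: l).length - 1] = l[l.length - 1] := by
          obtain ⟨n, hn⟩ := Nat.exists_eq_succ_of_ne_zero h0.ne'
          simp [hn]
        rw [this]; exact g3

theorem countP_range (p : ℕ → Prop) [DecidablePred p] (n : ℕ) :
    (List.range n).countP (fun i => decide (p i)) = Nat.count p n := by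
  induction n with
  | zero => simp
  | succ n ih =>
    rw [List.range_succ, List.countP_append, ih, Nat.count_succ]
    by_cases h : p n <;> simp [h]

theorem infix_split {E : Type} (l' A B : List E) (e : E) (h : l' <:+: A ++ e :: B)
    (he : e ∉ l') : l' <:+: A ∨ l' <:+: B := by
  obtain ⟨s, t, h⟩ := h
  rw [List.append_eq_append_iff] at h
  rcases h with ⟨a, h1, h2⟩ | ⟨c, h1, h2⟩
  · left; exact ⟨s, a, h1.symm⟩
  · cases c with
    | nil => left; exact ⟨s, [], by simpa using h1⟩
    | cons x c =>
      simp only [List.cons_append, List.cons.injEq] at h2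
      obtain ⟨rfl, h2⟩ := h2
      rw [List.append_eq_append_iff] at h1
      rcases h1 with ⟨a, h3, h4⟩ | ⟨a, h3, h4⟩
      · exact absurd (by rw [h4]; simp) he
      · cases a with
        | nil => exact absurd (by simp at h4; rw [← h4]; simp) he
        | cons y a =>
          simp only [List.cons_append, List.cons.injEq] at h4
          obtain ⟨rfl, h4⟩ := h4
          right
          exact ⟨a, t, by rw [h2, h4]⟩

theorem range_infix {E : Type} (f : ℕ → E) (L : ℕ) (l' : List E)
    (h : l' <:+: (List.range L).map f) :
    ∃ s, s + l'.length ≤ L ∧ l' = (List.range l'.length).map (fun i => f (s + i)) := by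
  obtain ⟨a, b, h⟩ := h
  have hlen := congrArg List.length h
  simp only [List.length_append, List.length_map, List.length_range] at hlen
  refine ⟨a.length, by omega, ?_⟩
  apply List.ext_getElem
  · simp
  · intro i h1 h2
    simp only [List.getElem_map, List.getElem_range]
    have h3 : a.length + i < (a ++ l' ++ b).length := by simp; omega
    have h4 : (a ++ l' ++ b)[a.length + i] = l'[i] := by
      rw [List.getElem_append_left (by simp; omega), List.getElem_append_right (by omega)]
      simp
    rw [← h4]
    have h5 : (a ++ l' ++ b)[a.length + i] = ((List.range L).map f)[a.length + i]'(by simp; omega) := by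
      congr 1
    rw [h5]; simp

theorem base {V E : Type} [DecidableEq E] (src tgt : E → V) (N : ℕ) (p₀ : V) (H : List E)
    (hN : 2 ≤ N) (hw : IsWalk src tgt p₀ p₀ H) (hH : H.Nodup) (h1 : 1 ≤ H.length)
    (p : V) (hp : p ∈ H.map src) (q : V) (hq : q ∈ H.map src) :
    ∃ l : List E, IsWalk src tgt p q l ∧ (∀ a ∈ l, a ∈ H) ∧
      H.length * (N - 1) + 1 ≤ l.length + 1 ∧
      ∀ l' : List E, l' <:+: l → l' ≠ [] → ∃ a, 1 ≤ l'.count a ∧ l'.count a ≤ N - 1 := by
  obtain ⟨g1, g2, g3⟩ := isWalk_get src tgt H p₀ p₀ hw h1
  set m := H.length with hm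
  have hmod : ∀ i, i % m < H.length := fun i => Nat.mod_lt _ h1
  set h : ℕ → E := fun i => H[i % m]'(hmod i) with hh
  have hstep : ∀ i, tgt (h i) = src (h (i + 1)) := by
    intro i
    simp only [hh]
    by_cases hc : i % m + 1 < m
    · rw [g2 (i % m) hc]
      congr 2
      rw [Nat.add_mod, Nat.mod_eq_of_lt (show 1 < m by omega), Nat.mod_eq_of_lt hc]
    · have h2 : i % m = m - 1 := by have := hmod i; omega
      have h3 : (i + 1) % m = 0 := by
        have : (i + 1) % m = (i % m + 1) % m := by simp [Nat.add_mod]
        rw [this, h2, Nat.sub_add_cancel h1, Nat.mod_self]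
      have h4 : H[i % m]'(hmod i) = H[m - 1] := by congr 1
      have h5 : H[(i + 1) % m]'(hmod (i+1)) = H[0] := by congr 1
      rw [h4, h5, g3, g1]
  have hwalk : ∀ s L, IsWalk src tgt (src (h s)) (src (h (s + L)))
      ((List.range L).map (fun i => h (s + i))) := by
    intro s L
    induction L with
    | zero => simp [IsWalk]
    | succ L ih =>
      rw [List.range_succ, List.map_append, isWalk_append]
      refine ⟨_, ih, ?_⟩
      simp only [List.map_cons, List.map_nil, IsWalk, true_and]
      exact hstep _
  obtain ⟨x, hx, rfl⟩ := List.mem_map.mp hp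
  obtain ⟨y, hy, rfl⟩ := List.mem_map.mp hq
  obtain ⟨s, hs, rfl⟩ := List.getElem_of_mem hx
  obtain ⟨t, ht, rfl⟩ := List.getElem_of_mem hy
  have e1 : H[s] = h s := by simp only [hh]; congr 1; rw [Nat.mod_eq_of_lt hs]
  have e2 : ∀ j, j % m = t → H[t] = h j := by
    intro j hj; simp only [hh]; congr 1; rw [hj]
  set L := m * (N - 1) + (t + m - s) % m with hL
  have hLt : (s + L) % m = t := by
    have : s + L ≡ t [MOD m] := by
      calc s + L ≡ s + (0 + (t + m - s)) [MOD m] := by
            apply Nat.ModEq.add_left
            apply Nat.ModEq.add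
            · exact (Nat.modEq_zero_iff_dvd.mpr (Dvd.intro _ rfl))
            · exact Nat.mod_modEq _ _
        _ = t + m := by omega
        _ ≡ t [MOD m] := by simp [Nat.ModEq]
    rw [Nat.ModEq, Nat.mod_eq_of_lt ht] at this
    exact this
  have hLlt : L < m * N := by
    have h6 : (t + m - s) % m < m := Nat.mod_lt _ h1
    obtain ⟨N', rfl⟩ : ∃ N', N = N' + 1 := ⟨N - 1, by omega⟩
    simp only [Nat.add_sub_cancel] at hL
    rw [hL, Nat.mul_add, Nat.mul_one]; omega
  refine ⟨(List.range L).map (fun i => h (s + i)), ?_, ?_, ?_, ?_⟩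
  · rw [e1, e2 (s + L) hLt]; exact hwalk s L
  · intro a ha
    obtain ⟨i, -, rfl⟩ := List.mem_map.mp ha
    exact List.getElem_mem _
  · simp only [List.length_map, List.length_range]; omega
  · intro l' hl' hne
    obtain ⟨u, hu1, hu2⟩ := range_infix _ _ _ hl'
    set n := l'.length with hn
    have hn0 : 0 < n := List.length_pos_iff.mpr hne
    have hcount : ∀ r, l'.count (h (s + (u + r))) = n / m + if r % m < n % m then 1 else 0 := by
      intro r
      have h7 : l'.count (h (s + (u + r))) = Nat.count (· ≡ r [MOD m]) n := by
        rw [hu2, List.count, List.countP_map, ← countP_range]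
        congr 1
        ext i
        simp only [Function.comp]
        rw [Bool.eq_iff_iff]
        simp only [beq_iff_eq, decide_eq_true_eq]
        simp only [hh]
        rw [List.Nodup.getElem_inj_iff hH]
        constructor
        · intro h8
          have h9 : s + (u + i) ≡ s + (u + r) [MOD m] := h8
          exact Nat.ModEq.add_left_cancel' u (Nat.ModEq.add_left_cancel' s h9)
        · intro h8
          exact Nat.ModEq.add_left s (Nat.ModEq.add_left u h8)
      rw [h7]; exact Nat.count_modEq_card n (show 0 < m by omega) r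
    by_cases hc : n < m
    · refine ⟨h (s + (u + 0)), ?_, ?_⟩
      · rw [hcount 0, Nat.div_eq_of_lt hc, Nat.zero_mod, Nat.mod_eq_of_lt hc, if_pos hn0]
      · rw [hcount 0, Nat.div_eq_of_lt hc, Nat.zero_mod, Nat.mod_eq_of_lt hc, if_pos hn0]; omega
    · have h8 : (m - 1) % m = m - 1 := Nat.mod_eq_of_lt (by omega)
      have h9 : ¬ (m - 1 < n % m) := by have := Nat.mod_lt n h1; omega
      have h10 := hcount (m - 1)
      rw [h8, if_neg h9, Nat.add_zero] at h10
      refine ⟨h (s + (u + (m - 1))), ?_, ?_⟩
      · rw [h10]; exact Nat.div_pos (by omega) (by omega)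
      · rw [h10]
        have : n / m < N := by
          rw [Nat.div_lt_iff_lt_mul h1]
          have : n ≤ L := by omega
          calc n ≤ L := this
            _ < m * N := hLlt
            _ = N * m := Nat.mul_comm _ _
        omega

/-- LW. -/
theorem lw : GLong := by
  intro V E _ src tgt N p₀ H c hN hw hH h1 _ hc hcH
  induction c with
  | nil =>
    intro p hp q hq
    obtain ⟨l, g1, g2, g3, g4⟩ := base src tgt N p₀ H hN hw hH h1 p hp q hq
    exact ⟨l, g1, fun a ha => Or.inl (g2 a ha), by simpa using g3, g4⟩
  | cons e c ih =>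
    have ih' := ih (List.nodup_cons.mp hc).2 (fun x hx => hcH x (List.mem_cons_of_mem _ hx))
    obtain ⟨he1, he2, he3⟩ := hcH e List.mem_cons_self
    have he4 : e ∉ c := (List.nodup_cons.mp hc).1
    set K := (H.length * (N - 1) + 1) * N ^ c.length with hK
    have key : ∀ j, ∀ p ∈ H.map src, ∀ q ∈ H.map src, ∃ l : List E, IsWalk src tgt p q l ∧
        (∀ a ∈ l, a ∈ H ∨ a ∈ e :: c) ∧ l.count e = j ∧ K * (j + 1) ≤ l.length + 1 ∧
        ∀ l' : List E, l' <:+: l → l' ≠ [] → e ∉ l' →
          ∃ a, 1 ≤ l'.count a ∧ l'.count a ≤ N - 1 := by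
      intro j
      induction j with
      | zero =>
        intro p hp q hq
        obtain ⟨l, g1, g2, g3, g4⟩ := ih' p hp q hq
        refine ⟨l, g1, ?_, ?_, by simpa using g3, fun l' a b _ => g4 l' a b⟩
        · intro a ha
          rcases g2 a ha with h | h
          · exact Or.inl h
          · exact Or.inr (List.mem_cons_of_mem _ h)
        · rw [List.count_eq_zero]
          intro h
          rcases g2 e h with h | h
          · exact he1 h
          · exact he4 h
      | succ j ihj =>
        intro p hp q hq
        obtain ⟨l, g1, g2, g3, g4⟩ := ih' p hp (src e) he2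
        obtain ⟨l2, k1, k2, k3, k4, k5⟩ := ihj (tgt e) he3 q hq
        have hce : l.count e = 0 := by
          rw [List.count_eq_zero]
          intro h
          rcases g2 e h with h | h
          · exact he1 h
          · exact he4 h
        refine ⟨l ++ e :: l2, ?_, ?_, ?_, ?_, ?_⟩
        · rw [isWalk_append]
          exact ⟨_, g1, rfl, k1⟩
        · intro a ha
          rcases List.mem_append.mp ha with ha | ha
          · rcases g2 a ha with h | h
            · exact Or.inl h
            · exact Or.inr (List.mem_cons_of_mem _ h)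
          · rcases List.mem_cons.mp ha with rfl | ha
            · exact Or.inr List.mem_cons_self
            · exact k2 a ha
        · rw [List.count_append, hce, List.count_cons_self, k3]; omega
        · simp only [List.length_append, List.length_cons]
          have : K * (j + 1 + 1) = K * (j + 1) + K := by ring
          omega
        · intro l' h2 h3 h4
          rcases infix_split l' l l2 e h2 h4 with h5 | h5
          · exact g4 l' h5 h3
          · exact k5 l' h5 h3 h4
    intro p hp q hq
    obtain ⟨l, g1, g2, g3, g4, g5⟩ := key (N - 1) p hp q hq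
    refine ⟨l, g1, g2, ?_, ?_⟩
    · have h6 : N - 1 + 1 = N := by omega
      rw [h6] at g4
      calc (H.length * (N - 1) + 1) * N ^ (e :: c).length = K * N := by
            rw [hK, List.length_cons, pow_succ]; ring
        _ ≤ _ := g4
    · intro l' h2 h3
      by_cases h4 : e ∈ l'
      · refine ⟨e, List.one_le_count_iff.mpr h4, ?_⟩
        rw [← g3]
        exact List.Sublist.count_le e h2.sublist
      · exact g5 l' h2 h3 h4

end Pool.Agent.Helper25.SK
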